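import Pool.Agent.H91.SR.Chb
import Pool.Agent.H70.PL.Pr
import Pool.Agent.H47.SF.Chu
import Pool.Agent.H47.SF.Der

/-!
SHARP RATE (MP_8f2e1c_an), piece 4: the homogeneous map in a chart, for `X : CV d`.

`Fb X b u = FF X (wB b + (u / √d) • wC b)` is the chart function at the centre `b` (natural scale of the cells).
-/

set_option autoImplicit false

open Finset
open Pool.H70.SF Pool.H91.SR

namespace Pool.Agent.H47.SR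

variable {d : ℕ}

/-- the chart function -/
noncomputable def Fb (X : CV d) (b u : ℂ) : ℂ × ℂ := FF X (wB b + (u / ((√d : ℝ) : ℂ)) • wC b)

theorem sd_pos (hd : 1 ≤ d) : (0 : ℝ) < √d := Real.sqrt_pos.2 (by exact_mod_cast hd)

theorem sdc_ne (hd : 1 ≤ d) : ((√d : ℝ) : ℂ) ≠ 0 := by exact_mod_cast (sd_pos hd).ne'

/-- the derivative of one coordinate -/
theorem hev_chart (p : Fin (d + 1) → ℂ) (b u : ℂ) :
    HasDerivAt (fun u : ℂ => hev p (wB b + (u / ((√d : ℝ) : ℂ)) • wC b))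
      ((hev1 p (wB b + (u / ((√d : ℝ) : ℂ)) • wC b) * (wC b).1 +
        hev2 p (wB b + (u / ((√d : ℝ) : ℂ)) • wC b) * (wC b).2) * (1 / ((√d : ℝ) : ℂ))) u := by
  have h1 := Pool.Agent.H47.SF.hasDerivAt_hev p (wB b) (wC b) (u / ((√d : ℝ) : ℂ))
  have h2 : HasDerivAt (fun u : ℂ => u / ((√d : ℝ) : ℂ)) (1 / ((√d : ℝ) : ℂ)) u := (hasDerivAt_id u).div_const _
  exact HasDerivAt.comp u h1 h2

theorem Fb_has (X : CV d) (b u : ℂ) :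
    HasDerivAt (Fb X b)
      (((hev1 X.1 (wB b + (u / ((√d : ℝ) : ℂ)) • wC b) * (wC b).1 +
        hev2 X.1 (wB b + (u / ((√d : ℝ) : ℂ)) • wC b) * (wC b).2) * (1 / ((√d : ℝ) : ℂ)),
        (hev1 X.2 (wB b + (u / ((√d : ℝ) : ℂ)) • wC b) * (wC b).1 +
        hev2 X.2 (wB b + (u / ((√d : ℝ) : ℂ)) • wC b) * (wC b).2) * (1 / ((√d : ℝ) : ℂ)))) u :=
  (hev_chart X.1 b u).prodMk (hev_chart X.2 b u)

theorem Fb_diff (X : CV d) (b : ℂ) : Differentiable ℂ (Fb X b) := fun u => (Fb_has X b u).differentiableAt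

/-- the Jacobian in the chart -/
theorem Jc_Fb (hd : 1 ≤ d) (X : CV d) (b u : ℂ) :
    (d : ℂ) * ((√d : ℝ) : ℂ) * Pool.Agent.H70.PL.Jc (Fb X b) u = -JJ X (wB b + (u / ((√d : ℝ) : ℂ)) • wC b) := by
  have h1 := Pool.Agent.H47.SF.jac X (wB b + (u / ((√d : ℝ) : ℂ)) • wC b) (wC b)
  rw [wd_linC] at h1
  have h2 := sdc_ne hd
  unfold Pool.Agent.H70.PL.Jc
  rw [(Fb_has X b u).deriv]
  have h3 : wd (Fb X b u) ((hev1 X.1 (wB b + (u / ((√d : ℝ) : ℂ)) • wC b) * (wC b).1 +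
        hev2 X.1 (wB b + (u / ((√d : ℝ) : ℂ)) • wC b) * (wC b).2) * (1 / ((√d : ℝ) : ℂ)),
        (hev1 X.2 (wB b + (u / ((√d : ℝ) : ℂ)) • wC b) * (wC b).1 +
        hev2 X.2 (wB b + (u / ((√d : ℝ) : ℂ)) • wC b) * (wC b).2) * (1 / ((√d : ℝ) : ℂ))) =
      (hev X.1 (wB b + (u / ((√d : ℝ) : ℂ)) • wC b) * (hev1 X.2 (wB b + (u / ((√d : ℝ) : ℂ)) • wC b) * (wC b).1 +
        hev2 X.2 (wB b + (u / ((√d : ℝ) : ℂ)) • wC b) * (wC b).2) -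
      hev X.2 (wB b + (u / ((√d : ℝ) : ℂ)) • wC b) * (hev1 X.1 (wB b + (u / ((√d : ℝ) : ℂ)) • wC b) * (wC b).1 +
        hev2 X.1 (wB b + (u / ((√d : ℝ) : ℂ)) • wC b) * (wC b).2)) * (1 / ((√d : ℝ) : ℂ)) := by
    unfold wd Fb FF
    ring
  rw [h3]
  have h4 : (d : ℂ) * ((√d : ℝ) : ℂ) * ((hev X.1 (wB b + (u / ((√d : ℝ) : ℂ)) • wC b) * (hev1 X.2 (wB b + (u / ((√d : ℝ) : ℂ)) • wC b) * (wC b).1 +
        hev2 X.2 (wB b + (u / ((√d : ℝ) : ℂ)) • wC b) * (wC b).2) -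
      hev X.2 (wB b + (u / ((√d : ℝ) : ℂ)) • wC b) * (hev1 X.1 (wB b + (u / ((√d : ℝ) : ℂ)) • wC b) * (wC b).1 +
        hev2 X.1 (wB b + (u / ((√d : ℝ) : ℂ)) • wC b) * (wC b).2)) * (1 / ((√d : ℝ) : ℂ))) =
      (d : ℂ) * (hev X.1 (wB b + (u / ((√d : ℝ) : ℂ)) • wC b) * (hev1 X.2 (wB b + (u / ((√d : ℝ) : ℂ)) • wC b) * (wC b).1 +
        hev2 X.2 (wB b + (u / ((√d : ℝ) : ℂ)) • wC b) * (wC b).2) -
      hev X.2 (wB b + (u / ((√d : ℝ) : ℂ)) • wC b) * (hev1 X.1 (wB b + (u / ((√d : ℝ) : ℂ)) • wC b) * (wC b).1 +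
        hev2 X.1 (wB b + (u / ((√d : ℝ) : ℂ)) • wC b) * (wC b).2)) := by
    rw [show (d : ℂ) * ((√d : ℝ) : ℂ) * ((hev X.1 (wB b + (u / ((√d : ℝ) : ℂ)) • wC b) * (hev1 X.2 (wB b + (u / ((√d : ℝ) : ℂ)) • wC b) * (wC b).1 +
        hev2 X.2 (wB b + (u / ((√d : ℝ) : ℂ)) • wC b) * (wC b).2) -
      hev X.2 (wB b + (u / ((√d : ℝ) : ℂ)) • wC b) * (hev1 X.1 (wB b + (u / ((√d : ℝ) : ℂ)) • wC b) * (wC b).1 +
        hev2 X.1 (wB b + (u / ((√d : ℝ) : ℂ)) • wC b) * (wC b).2)) * (1 / ((√d : ℝ) : ℂ))) =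
      (d : ℂ) * (hev X.1 (wB b + (u / ((√d : ℝ) : ℂ)) • wC b) * (hev1 X.2 (wB b + (u / ((√d : ℝ) : ℂ)) • wC b) * (wC b).1 +
        hev2 X.2 (wB b + (u / ((√d : ℝ) : ℂ)) • wC b) * (wC b).2) -
      hev X.2 (wB b + (u / ((√d : ℝ) : ℂ)) • wC b) * (hev1 X.1 (wB b + (u / ((√d : ℝ) : ℂ)) • wC b) * (wC b).1 +
        hev2 X.1 (wB b + (u / ((√d : ℝ) : ℂ)) • wC b) * (wC b).2)) * (((√d : ℝ) : ℂ) * (1 / ((√d : ℝ) : ℂ))) by ring,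
      mul_one_div_cancel h2, mul_one]
  rw [h4, h1]
  ring

theorem Jc_norm (hd : 1 ≤ d) (X : CV d) (b u : ℂ) :
    ‖JJ X (wB b + (u / ((√d : ℝ) : ℂ)) • wC b)‖ = d * √d * ‖Pool.Agent.H70.PL.Jc (Fb X b) u‖ := by
  have h := congrArg norm (Jc_Fb hd X b u)
  rw [norm_neg, norm_mul, norm_mul, Complex.norm_natCast, Complex.norm_real, Real.norm_eq_abs,
    abs_of_nonneg (Real.sqrt_nonneg _)] at h
  exact h.symm

/-- the map at a chart point -/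
theorem FF_ptX (X : CV d) (b u : ℂ) :
    FF X (pt d b u) = ((((√(1 + ‖u‖ ^ 2 / d))⁻¹ : ℝ) : ℂ) ^ d) • Fb X b u := by
  unfold pt
  rw [Pool.Agent.H47.SF.FF_smul]
  rfl

theorem nm_FF_pt (X : CV d) (b u : ℂ) :
    Pool.Agent.H70.PL.nm (FF X (pt d b u)) = ((√(1 + ‖u‖ ^ 2 / d))⁻¹) ^ d * Pool.Agent.H70.PL.nm (Fb X b u) := by
  rw [FF_ptX, Pool.Agent.H70.PL.nm_smul, norm_pow, Complex.norm_real, Real.norm_eq_abs, abs_of_nonneg (by positivity)]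

theorem JJ_ptX (X : CV d) (b u : ℂ) :
    JJ X (pt d b u) = ((((√(1 + ‖u‖ ^ 2 / d))⁻¹ : ℝ) : ℂ) ^ (2 * (d - 1))) * JJ X (wB b + (u / ((√d : ℝ) : ℂ)) • wC b) := by
  unfold pt
  rw [Pool.Agent.H47.SF.JJ_smul]

/-- critical points in the chart -/
theorem JJ_pt_iff (hd : 1 ≤ d) (X : CV d) (b u : ℂ) :
    JJ X (pt d b u) = 0 ↔ Pool.Agent.H70.PL.Jc (Fb X b) u = 0 := by
  have h1 : (0 : ℝ) < (√(1 + ‖u‖ ^ 2 / d))⁻¹ := by positivity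
  have h2 : (((√(1 + ‖u‖ ^ 2 / d))⁻¹ : ℝ) : ℂ) ≠ 0 := by exact_mod_cast h1.ne'
  have h4 : (d : ℂ) ≠ 0 := by
    have : d ≠ 0 := by omega
    exact_mod_cast this
  have h5 := Jc_Fb hd X b u
  rw [JJ_ptX]
  constructor
  · intro h
    rcases mul_eq_zero.1 h with h | h
    · exact absurd h (pow_ne_zero _ h2)
    · rw [h, neg_zero] at h5
      rcases mul_eq_zero.1 h5 with h6 | h6
      · exact absurd h6 (mul_ne_zero h4 (sdc_ne hd))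
      · exact h6
  · intro h
    rw [h, mul_zero] at h5
    rw [neg_eq_zero.1 h5.symm, mul_zero]

/-- the spherical derivative at a chart point -/
theorem aa_ptX (hd : 1 ≤ d) (X : CV d) (b u : ℂ) :
    ‖aa X (pt d b u)‖ =
      √d * (‖Pool.Agent.H70.PL.Jc (Fb X b) u‖ / Pool.Agent.H70.PL.nm (Fb X b u) ^ 2) * (1 + ‖u‖ ^ 2 / d) := by
  have hn : n2 (FF X (pt d b u)) = Pool.Agent.H70.PL.nm (FF X (pt d b u)) ^ 2 := by
    unfold Pool.Agent.H70.PL.nm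
    rw [Real.sq_sqrt (Pool.Agent.H47.SF.n2_nonneg _)]
  unfold aa
  rw [hn, nm_FF_pt, JJ_ptX, norm_div, norm_mul, norm_mul, Complex.norm_natCast, Complex.norm_real, Real.norm_eq_abs,
    norm_pow, Complex.norm_real, Real.norm_eq_abs, abs_of_nonneg (by positivity), abs_of_nonneg (by positivity), Jc_norm hd]
  obtain ⟨A, hA⟩ : ∃ A : ℝ, A = 1 + ‖u‖ ^ 2 / d := ⟨_, rfl⟩
  have hA0 : 0 < A := by rw [hA]; positivity
  obtain ⟨N, hN⟩ : ∃ N : ℝ, N = Pool.Agent.H70.PL.nm (Fb X b u) := ⟨_, rfl⟩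
  rw [← hA, ← hN]
  have hd0 : (0 : ℝ) < d := by exact_mod_cast hd
  obtain ⟨e, rfl⟩ : ∃ e, d = e + 1 := ⟨d - 1, by omega⟩
  rw [Nat.add_sub_cancel, mul_pow, ← pow_mul, mul_comm (e + 1) 2, pow_mul, pow_mul, inv_pow, Real.sq_sqrt hA0.le]
  rcases eq_or_ne N 0 with h | h
  · rw [h]
    simp
  · rw [pow_succ]
    field_simp

/-- distance of images of chart points -/
theorem wd_nx_pt (X1 X2 : CV d) (b u1 u2 : ℂ) :
    ‖wd (nx X1 (pt d b u1)) (nx X2 (pt d b u2))‖ =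
      ‖wd (Fb X1 b u1) (Fb X2 b u2)‖ / (Pool.Agent.H70.PL.nm (Fb X1 b u1) * Pool.Agent.H70.PL.nm (Fb X2 b u2)) := by
  have key : ∀ (X : CV d) (u : ℂ), ∃ z : ℂ, ‖z‖ = (Pool.Agent.H70.PL.nm (Fb X b u))⁻¹ ∧ nx X (pt d b u) = z • Fb X b u := by
    intro X u
    have h0 : (0 : ℝ) < ((√(1 + ‖u‖ ^ 2 / d))⁻¹) ^ d := by positivity
    refine ⟨(((Pool.Agent.H70.PL.nm (FF X (pt d b u)))⁻¹ : ℝ) : ℂ) * ((((√(1 + ‖u‖ ^ 2 / d))⁻¹ : ℝ) : ℂ) ^ d), ?_, ?_⟩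
    · rw [norm_mul, norm_pow, Complex.norm_real, Complex.norm_real, Real.norm_eq_abs, Real.norm_eq_abs, nm_FF_pt,
        abs_of_nonneg (inv_nonneg.2 (mul_nonneg h0.le (Pool.Agent.H70.PL.nm_nonneg _))), abs_of_nonneg (by positivity),
        mul_inv, mul_comm, ← mul_assoc, mul_inv_cancel₀ h0.ne', one_mul]
    · unfold nx
      rw [mul_smul, ← FF_ptX]
      rfl
  obtain ⟨z1, h1, e1⟩ := key X1 u1
  obtain ⟨z2, h2, e2⟩ := key X2 u2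
  rw [e1, e2, Pool.H26.SF.wd_smul_left, Pool.H26.SF.wd_smul_right, norm_mul, norm_mul, h1, h2, div_eq_mul_inv, mul_inv]
  ring

/-- phases -/
theorem nx_phase (X : CV d) {z : ℂ} (hz : ‖z‖ = 1) (y : ℂ × ℂ) : nx X (z • y) = (z ^ d) • nx X y := by
  unfold nx
  rw [Pool.Agent.H47.SF.FF_smul, Pool.Agent.H47.SF.n2_smul, norm_pow, hz, one_pow, one_pow, one_mul, smul_comm]

theorem aa_phase (X : CV d) {z : ℂ} (hz : ‖z‖ = 1) (y : ℂ × ℂ) : ‖aa X (z • y)‖ = ‖aa X y‖ := by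
  unfold aa
  rw [Pool.Agent.H47.SF.FF_smul, Pool.Agent.H47.SF.n2_smul, Pool.Agent.H47.SF.JJ_smul, norm_pow, hz, one_pow, one_pow,
    one_mul, norm_div, norm_div, norm_mul, norm_pow, hz, one_pow, one_mul]

theorem wd_phase {z1 z2 : ℂ} (h1 : ‖z1‖ = 1) (h2 : ‖z2‖ = 1) (y1 y2 : ℂ × ℂ) : ‖wd (z1 • y1) (z2 • y2)‖ = ‖wd y1 y2‖ := by
  rw [Pool.H26.SF.wd_smul_left, Pool.H26.SF.wd_smul_right, norm_mul, norm_mul, h1, h2, one_mul, one_mul]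

end Pool.Agent.H47.SR
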