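import Pool.Agent.H47.SR.Hm

/-!
SHARP RATE (MP_8f2e1c_an), piece 4: points near a chart point are in the same chart; transfer of (B) and (C) from the chart
to the sphere.
-/

set_option autoImplicit false

open Finset
open Pool.H70.SF Pool.H91.SR

namespace Pool.Agent.H47.SR

variable {d : ℕ}

theorem pt_zero (d : ℕ) (b : ℂ) : pt d b 0 = wB b := by
  unfold pt
  simp

theorem sd_sq (d : ℕ) : √(d : ℝ) ^ 2 = d := Real.sq_sqrt (Nat.cast_nonneg d)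

/-- a point of distance at most `1/4` of a chart point with `‖u‖ ≤ 1/3` is a chart point of the same chart -/
theorem chart_near (hd : 1 ≤ d) {b u z : ℂ} {y y' : ℂ × ℂ} (hu : ‖u‖ ≤ 1 / 3) (hz : ‖z‖ = 1) (hy : y = z • pt d b u)
    (hy' : IsU y') (hD : √d * ‖wd y y'‖ ≤ 1 / 4) :
    ∃ u' z' : ℂ, ‖z'‖ = 1 ∧ y' = z' • pt d b u' ∧ ‖u'‖ ≤ 1 ∧ ‖u' - u‖ ≤ 3 / 2 * (√d * ‖wd y y'‖) ∧
      √d * ‖wd y y'‖ ≤ ‖u' - u‖ := by
  have hd1 : (1 : ℝ) ≤ d := by exact_mod_cast hd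
  have hsd : 1 ≤ √(d : ℝ) := Real.one_le_sqrt.2 hd1
  have hsd0 : 0 < √(d : ℝ) := by linarith
  have hsq := sd_sq d
  have hyU : IsU y := by
    rw [hy]
    show n2 _ = 1
    rw [Pool.Agent.H47.SF.n2_smul, hz, one_pow, one_mul]
    exact pt_unit d b u
  -- distance to the centre
  have h1 : √d * ‖wd y (wB b)‖ ≤ 1 / 3 := by
    have h := wd_pt d hd b u 0
    rw [pt_zero, sub_zero] at h
    have h2 : ‖wd y (wB b)‖ = ‖wd (pt d b u) (wB b)‖ := by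
      rw [hy, Pool.H26.SF.wd_smul_left, norm_mul, hz, one_mul]
    rw [h2, h]
    refine le_trans ?_ hu
    refine div_le_self (norm_nonneg _) ?_
    have e1 : 1 ≤ √(1 + ‖u‖ ^ 2 / d) := Real.one_le_sqrt.2 (by
      have : 0 ≤ ‖u‖ ^ 2 / d := by positivity
      linarith)
    have e2 : 1 ≤ √(1 + ‖(0 : ℂ)‖ ^ 2 / d) := Real.one_le_sqrt.2 (by
      have : 0 ≤ ‖(0 : ℂ)‖ ^ 2 / d := by positivity
      linarith)
    nlinarith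
  have h2 : √d * ‖wd y' (wB b)‖ ≤ 7 / 12 := by
    have h := Pool.Agent.H47.SF.tri hy' hyU (wB_unit b)
    have h' := mul_le_mul_of_nonneg_left h hsd0.le
    rw [mul_add, Pool.Agent.H47.SF.wd_comm y' y] at h'
    linarith
  have h4 : ‖wd y' (wB b)‖ ≤ 7 / 12 := by
    have : 1 * ‖wd y' (wB b)‖ ≤ √(d : ℝ) * ‖wd y' (wB b)‖ := mul_le_mul_of_nonneg_right hsd (norm_nonneg _)
    linarith
  obtain ⟨t, z0, g1, g2, g3⟩ := coord b hy' (by linarith)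
  obtain ⟨B, hB⟩ : ∃ B : ℝ, B = ‖wd y' (wB b)‖ := ⟨_, rfl⟩
  rw [← hB] at g3 h4 h2
  have hB0 : 0 ≤ B := by rw [hB]; positivity
  have hs0 : ((√d : ℝ) : ℂ) ≠ 0 := by exact_mod_cast hsd0.ne'
  have hnt : ‖((√d : ℝ) : ℂ) * t‖ ^ 2 = d * ‖t‖ ^ 2 := by
    rw [norm_mul, Complex.norm_real, Real.norm_eq_abs, abs_of_nonneg (Real.sqrt_nonneg _), mul_pow, hsq]
  have hut : ‖((√d : ℝ) : ℂ) * t‖ ^ 2 / d = ‖t‖ ^ 2 := by
    rw [hnt]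
    field_simp
  have hpt : y' = (z0 * ((√(1 + ‖t‖ ^ 2) : ℝ) : ℂ)) • pt d b (((√d : ℝ) : ℂ) * t) := by
    rw [g2]
    unfold pt
    rw [hut, smul_smul, mul_assoc, ← Complex.ofReal_mul, mul_inv_cancel₀ (by positivity), Complex.ofReal_one, mul_one,
      mul_div_assoc, mul_comm ((√d : ℝ) : ℂ), div_mul_cancel₀ _ hs0]
  have hph : ‖z0 * ((√(1 + ‖t‖ ^ 2) : ℝ) : ℂ)‖ = 1 := by
    rw [norm_mul, Complex.norm_real, Real.norm_eq_abs, abs_of_nonneg (Real.sqrt_nonneg _)]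
    have h5 : (‖z0‖ * √(1 + ‖t‖ ^ 2)) ^ 2 = 1 := by
      rw [mul_pow, Real.sq_sqrt (by positivity)]
      exact g1
    have h6 : 0 ≤ ‖z0‖ * √(1 + ‖t‖ ^ 2) := by positivity
    nlinarith
  have hu1 : ‖((√d : ℝ) : ℂ) * t‖ ≤ 1 := by
    have h5 : d * B ^ 2 ≤ 49 / 144 := by
      have : (√(d : ℝ) * B) ^ 2 ≤ (7 / 12) ^ 2 := by
        apply pow_le_pow_left₀ (by positivity) h2
      rw [mul_pow, hsq] at this
      linarith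
    have h6 : 95 / 144 ≤ 1 - B ^ 2 := by nlinarith
    have h7 : (d : ℝ) * ‖t‖ ^ 2 * (95 / 144) ≤ d * (‖t‖ ^ 2 * (1 - B ^ 2)) := by
      rw [mul_assoc]
      apply mul_le_mul_of_nonneg_left _ (by positivity)
      exact mul_le_mul_of_nonneg_left h6 (by positivity)
    rw [g3] at h7
    have h8 : ‖((√d : ℝ) : ℂ) * t‖ ^ 2 ≤ 1 ^ 2 := by
      rw [hnt]
      linarith
    exact le_of_sq_le_sq h8 (by norm_num)
  have hwd : √d * ‖wd y y'‖ = ‖u - ((√d : ℝ) : ℂ) * t‖ /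
      (√(1 + ‖u‖ ^ 2 / d) * √(1 + ‖((√d : ℝ) : ℂ) * t‖ ^ 2 / d)) := by
    rw [← wd_pt d hd b u]
    congr 1
    conv_lhs => rw [hy, hpt]
    exact wd_phase hz hph _ _
  obtain ⟨v, hv⟩ : ∃ v, v = ((√d : ℝ) : ℂ) * t := ⟨_, rfl⟩
  rw [← hv] at hwd hu1 hpt
  have hA : 1 ≤ √(1 + ‖u‖ ^ 2 / d) := Real.one_le_sqrt.2 (by
    have : 0 ≤ ‖u‖ ^ 2 / d := by positivity
    linarith)
  have hA' : 1 ≤ √(1 + ‖v‖ ^ 2 / d) := Real.one_le_sqrt.2 (by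
    have : 0 ≤ ‖v‖ ^ 2 / d := by positivity
    linarith)
  have hAA : √(1 + ‖u‖ ^ 2 / d) * √(1 + ‖v‖ ^ 2 / d) ≤ 3 / 2 := by
    have e1 : ‖u‖ ^ 2 / d ≤ 1 / 9 := by
      rw [div_le_iff₀ (by positivity)]
      have : ‖u‖ ^ 2 ≤ (1 / 3) ^ 2 := pow_le_pow_left₀ (norm_nonneg _) hu 2
      nlinarith
    have e2 : ‖v‖ ^ 2 / d ≤ 1 := by
      rw [div_le_iff₀ (by positivity)]
      have : ‖v‖ ^ 2 ≤ 1 ^ 2 := pow_le_pow_left₀ (norm_nonneg _) hu1 2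
      nlinarith
    rw [← Real.sqrt_mul (by positivity)]
    rw [show (3 / 2 : ℝ) = √((3 / 2) ^ 2) by rw [Real.sqrt_sq (by norm_num)]]
    apply Real.sqrt_le_sqrt
    have e0 : 0 ≤ ‖v‖ ^ 2 / d := by positivity
    have e3 : 0 ≤ ‖u‖ ^ 2 / d := by positivity
    nlinarith
  have hAp : 0 < √(1 + ‖u‖ ^ 2 / d) * √(1 + ‖v‖ ^ 2 / d) := by positivity
  refine ⟨v, _, hph, hpt, hu1, ?_, ?_⟩
  · rw [norm_sub_rev]
    have h9 : ‖u - v‖ = (√d * ‖wd y y'‖) * (√(1 + ‖u‖ ^ 2 / d) * √(1 + ‖v‖ ^ 2 / d)) := by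
      rw [hwd]
      field_simp
    rw [h9, mul_comm]
    exact mul_le_mul_of_nonneg_right hAA (by positivity)
  · rw [hwd, norm_sub_rev]
    refine div_le_self (norm_nonneg _) ?_
    nlinarith

/-- the conformal factors of the chart are almost constant -/
theorem fac_near (hd : 1 ≤ d) {u v : ℂ} {e : ℝ} (hu : ‖u‖ ≤ 1) (hv : ‖v‖ ≤ 1) (he : ‖v - u‖ ≤ e) :
    |(1 + ‖v‖ ^ 2 / d) - (1 + ‖u‖ ^ 2 / d)| ≤ 2 * e := by
  have hd1 : (1 : ℝ) ≤ d := by exact_mod_cast hd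
  have h1 : |‖v‖ - ‖u‖| ≤ e := le_trans (abs_norm_sub_norm_le v u) he
  have he0 : 0 ≤ e := le_trans (norm_nonneg _) he
  have e1 : (1 + ‖v‖ ^ 2 / d) - (1 + ‖u‖ ^ 2 / d) = (‖v‖ - ‖u‖) * ((‖v‖ + ‖u‖) / d) := by ring
  rw [e1, abs_mul]
  have h2 : |(‖v‖ + ‖u‖) / d| ≤ 2 := by
    rw [abs_of_nonneg (by positivity), div_le_iff₀ (by positivity)]
    linarith
  calc |‖v‖ - ‖u‖| * |(‖v‖ + ‖u‖) / ↑d| ≤ e * 2 := mul_le_mul h1 h2 (abs_nonneg _) he0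
    _ = 2 * e := by ring

/-- transfer of (B) -/
theorem trB (hd : 1 ≤ d) (X X1 X2 : CV d) {b u u1 u2 : ℂ} {e η ι : ℝ} (hu : ‖u‖ ≤ 1) (hu1 : ‖u1‖ ≤ 1)
    (hu2 : ‖u2‖ ≤ 1) (h1 : ‖u1 - u‖ ≤ e) (h2 : ‖u2 - u‖ ≤ e) (he : e ≤ 1 / 2) (hη : 0 ≤ η) (hι : 0 ≤ ι)
    (hB : |‖wd (Fb X1 b u1) (Fb X2 b u2)‖ / (Pool.Agent.H70.PL.nm (Fb X1 b u1) * Pool.Agent.H70.PL.nm (Fb X2 b u2)) -
      ‖Pool.Agent.H70.PL.Jc (Fb X b) u‖ / Pool.Agent.H70.PL.nm (Fb X b u) ^ 2 * ‖u1 - u2‖| ≤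
      ‖Pool.Agent.H70.PL.Jc (Fb X b) u‖ / Pool.Agent.H70.PL.nm (Fb X b u) ^ 2 * (η * ‖u1 - u2‖ + ι)) :
    |√d * ‖wd (nx X1 (pt d b u1)) (nx X2 (pt d b u2))‖ -
      ‖aa X (pt d b u)‖ * (√d * ‖wd (pt d b u1) (pt d b u2)‖)| ≤
      ‖aa X (pt d b u)‖ * ((2 * η + 2 * e) * (√d * ‖wd (pt d b u1) (pt d b u2)‖) + ι) := by
  have hsd0 := sd_pos hd
  have he0 : 0 ≤ e := le_trans (norm_nonneg _) h1
  rw [wd_nx_pt, aa_ptX hd, wd_pt d hd]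
  obtain ⟨K, hK⟩ : ∃ K, K = ‖Pool.Agent.H70.PL.Jc (Fb X b) u‖ / Pool.Agent.H70.PL.nm (Fb X b u) ^ 2 := ⟨_, rfl⟩
  obtain ⟨W, hW⟩ : ∃ W, W = ‖wd (Fb X1 b u1) (Fb X2 b u2)‖ /
    (Pool.Agent.H70.PL.nm (Fb X1 b u1) * Pool.Agent.H70.PL.nm (Fb X2 b u2)) := ⟨_, rfl⟩
  have hK0 : 0 ≤ K := by rw [hK]; positivity
  rw [← hK, ← hW] at hB ⊢
  obtain ⟨A0, hA0⟩ : ∃ A0 : ℝ, A0 = 1 + ‖u‖ ^ 2 / d := ⟨_, rfl⟩
  obtain ⟨A1, hA1⟩ : ∃ A1 : ℝ, A1 = 1 + ‖u1‖ ^ 2 / d := ⟨_, rfl⟩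
  obtain ⟨A2, hA2⟩ : ∃ A2 : ℝ, A2 = 1 + ‖u2‖ ^ 2 / d := ⟨_, rfl⟩
  have f1 := fac_near hd hu hu1 h1
  have f2 := fac_near hd hu hu2 h2
  rw [← hA0, ← hA1] at f1
  rw [← hA0, ← hA2] at f2
  rw [← hA0, ← hA1, ← hA2]
  have g0 : 1 ≤ A0 := by
    rw [hA0]
    have : 0 ≤ ‖u‖ ^ 2 / d := by positivity
    linarith
  have g1 : 1 ≤ A1 := by
    rw [hA1]
    have : 0 ≤ ‖u1‖ ^ 2 / d := by positivity
    linarith
  have g2 : 1 ≤ A2 := by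
    rw [hA2]
    have : 0 ≤ ‖u2‖ ^ 2 / d := by positivity
    linarith
  obtain ⟨r, hr⟩ : ∃ r : ℝ, r = √A1 * √A2 := ⟨_, rfl⟩
  have hr0 : 0 < r := by
    rw [hr]
    have e1 : 0 < √A1 := Real.sqrt_pos.2 (by linarith)
    have e2 : 0 < √A2 := Real.sqrt_pos.2 (by linarith)
    positivity
  have hr2 : r ^ 2 = A1 * A2 := by
    rw [hr, mul_pow, Real.sq_sqrt (by linarith), Real.sq_sqrt (by linarith)]
  have f1' := abs_le.1 f1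
  have f2' := abs_le.1 f2
  have hrA : |r - A0| ≤ 2 * e := by
    rw [abs_le]
    constructor
    · by_contra hcon
      push Not at hcon
      have e1 : r < A0 - 2 * e := by linarith
      have e2 : r ^ 2 < (A0 - 2 * e) ^ 2 := by nlinarith
      have e3 : (A0 - 2 * e) ^ 2 ≤ A1 * A2 := by
        have e4 : A0 - 2 * e ≤ A1 := by linarith
        have e5 : A0 - 2 * e ≤ A2 := by linarith
        have e6 : 0 ≤ A0 - 2 * e := by linarith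
        nlinarith
      linarith
    · by_contra hcon
      push Not at hcon
      have e1 : A0 + 2 * e < r := by linarith
      have e2 : (A0 + 2 * e) ^ 2 < r ^ 2 := by nlinarith
      have e3 : A1 * A2 ≤ (A0 + 2 * e) ^ 2 := by
        have e4 : A1 ≤ A0 + 2 * e := by linarith
        have e5 : A2 ≤ A0 + 2 * e := by linarith
        nlinarith
      linarith
  rw [← hr]
  obtain ⟨D, hDe⟩ : ∃ D : ℝ, D = ‖u1 - u2‖ / r := ⟨_, rfl⟩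
  have hD0 : 0 ≤ D := by rw [hDe]; positivity
  have hDr : ‖u1 - u2‖ = D * r := by rw [hDe]; field_simp
  rw [← hDe]
  rw [hDr] at hB
  have hB1 : |√d * W - √d * (K * (D * r))| ≤ √d * (K * (η * (D * r) + ι)) := by
    rw [← mul_sub, abs_mul, abs_of_pos hsd0]
    exact mul_le_mul_of_nonneg_left hB hsd0.le
  have hrA' := abs_le.1 hrA
  have hB2 : |√d * (K * (D * r)) - √d * K * A0 * D| ≤ √d * K * D * (2 * e) := by
    have e1 : √d * (K * (D * r)) - √d * K * A0 * D = √d * K * D * (r - A0) := by ring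
    rw [e1, abs_mul, abs_of_nonneg (by positivity)]
    exact mul_le_mul_of_nonneg_left hrA (by positivity)
  have hB3 : √d * W - √d * K * A0 * D = (√d * W - √d * (K * (D * r))) + (√d * (K * (D * r)) - √d * K * A0 * D) := by ring
  rw [hB3]
  refine le_trans (abs_add_le _ _) ?_
  refine le_trans (add_le_add hB1 hB2) ?_
  have q1 : 0 ≤ √d * K := by positivity
  have q2 : √d * K * (η * (D * r) + ι) + √d * K * D * (2 * e) ≤ √d * K * (A0 * ((2 * η + 2 * e) * D + ι)) := by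
    have q3 : r ≤ 2 * A0 := by linarith
    have q4 : η * (D * r) ≤ η * (D * (2 * A0)) := by
      refine mul_le_mul_of_nonneg_left ?_ hη
      exact mul_le_mul_of_nonneg_left q3 hD0
    have q5 : ι ≤ A0 * ι := by nlinarith
    have q6 : D * (2 * e) ≤ A0 * (D * (2 * e)) := by
      have : 0 ≤ D * (2 * e) := by positivity
      nlinarith
    have q7 : η * (D * r) + ι + D * (2 * e) ≤ A0 * ((2 * η + 2 * e) * D + ι) := by nlinarith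
    have := mul_le_mul_of_nonneg_left q7 q1
    linarith
  linarith

/-- transfer of (C) -/
theorem trC (hd : 1 ≤ d) (X X1 : CV d) {b u u1 : ℂ} {e η : ℝ} (hu : ‖u‖ ≤ 1) (hu1 : ‖u1‖ ≤ 1)
    (h1 : ‖u1 - u‖ ≤ e) (he : e ≤ 1 / 2) (hη : 0 ≤ η)
    (hC : (1 - η) * (‖Pool.Agent.H70.PL.Jc (Fb X b) u‖ / Pool.Agent.H70.PL.nm (Fb X b u) ^ 2) ≤
      ‖Pool.Agent.H70.PL.Jc (Fb X1 b) u1‖ / Pool.Agent.H70.PL.nm (Fb X1 b u1) ^ 2 ∧
      ‖Pool.Agent.H70.PL.Jc (Fb X1 b) u1‖ / Pool.Agent.H70.PL.nm (Fb X1 b u1) ^ 2 ≤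
      (1 + η) * (‖Pool.Agent.H70.PL.Jc (Fb X b) u‖ / Pool.Agent.H70.PL.nm (Fb X b u) ^ 2)) :
    (1 - (2 * η + 2 * e)) * ‖aa X (pt d b u)‖ ≤ ‖aa X1 (pt d b u1)‖ ∧
      ‖aa X1 (pt d b u1)‖ ≤ (1 + (2 * η + 2 * e)) * ‖aa X (pt d b u)‖ := by
  have hsd0 := sd_pos hd
  have he0 : 0 ≤ e := le_trans (norm_nonneg _) h1
  rw [aa_ptX hd, aa_ptX hd]
  obtain ⟨K, hK⟩ : ∃ K, K = ‖Pool.Agent.H70.PL.Jc (Fb X b) u‖ / Pool.Agent.H70.PL.nm (Fb X b u) ^ 2 := ⟨_, rfl⟩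
  obtain ⟨K1, hK1⟩ : ∃ K1, K1 = ‖Pool.Agent.H70.PL.Jc (Fb X1 b) u1‖ / Pool.Agent.H70.PL.nm (Fb X1 b u1) ^ 2 := ⟨_, rfl⟩
  have hK0 : 0 ≤ K := by rw [hK]; positivity
  have hK10 : 0 ≤ K1 := by rw [hK1]; positivity
  rw [← hK, ← hK1] at hC ⊢
  obtain ⟨A0, hA0⟩ : ∃ A0 : ℝ, A0 = 1 + ‖u‖ ^ 2 / d := ⟨_, rfl⟩
  obtain ⟨A1, hA1⟩ : ∃ A1 : ℝ, A1 = 1 + ‖u1‖ ^ 2 / d := ⟨_, rfl⟩
  have f1 := fac_near hd hu hu1 h1
  rw [← hA0, ← hA1] at f1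
  rw [← hA0, ← hA1]
  have g0 : 1 ≤ A0 := by
    rw [hA0]
    have : 0 ≤ ‖u‖ ^ 2 / d := by positivity
    linarith
  have f1' := abs_le.1 f1
  obtain ⟨c1, c2⟩ := hC
  have hlo : (1 - 2 * e) * A0 ≤ A1 := by nlinarith
  have hup : A1 ≤ (1 + 2 * e) * A0 := by nlinarith
  have q1 : 0 ≤ √d * (K * A0) := by positivity
  constructor
  · have e1 : ((1 - η) * K) * ((1 - 2 * e) * A0) ≤ K1 * A1 :=
      mul_le_mul c1 hlo (mul_nonneg (by linarith) (by linarith)) hK10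
    have e2 : (1 - (2 * η + 2 * e)) * (K * A0) ≤ ((1 - η) * K) * ((1 - 2 * e) * A0) := by
      have : 0 ≤ K * A0 := by positivity
      nlinarith [mul_nonneg hη he0]
    have e3 := mul_le_mul_of_nonneg_left (le_trans e2 e1) hsd0.le
    linarith
  · have e1 : K1 * A1 ≤ ((1 + η) * K) * ((1 + 2 * e) * A0) :=
      mul_le_mul c2 hup (by nlinarith) (by positivity)
    have e2 : ((1 + η) * K) * ((1 + 2 * e) * A0) ≤ (1 + (2 * η + 2 * e)) * (K * A0) := by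
      have h3 : 0 ≤ K * A0 := by positivity
      have h4 : (1 + η) * (1 + 2 * e) ≤ 1 + (2 * η + 2 * e) := by nlinarith
      nlinarith
    have e3 := mul_le_mul_of_nonneg_left (le_trans e1 e2) hsd0.le
    linarith

end Pool.Agent.H47.SR
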