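import Mathlib

/-!
SHARP RATE (MP_8f2e1c_an), piece 4: the recursion of TWO as statements about real sequences.

`lm a i = ∏ l < i, a l`. `rec_boot`: if `x` is multiplied by `a i ≥ 2` up to a relative error `η i` and an absolute error
`ι` (as long as `x i ≤ 2 (lm a i) D`), then `x i = lm a i (x 0 + small)`. `lm_ratio`: products of nearly equal factors.
`sum_eta`: the sum of the relative errors.
-/

set_option autoImplicit false

open Finset

namespace Pool.Agent.H47.SR

/-- the product of the multipliers before `i` -/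
noncomputable def lm (a : ℕ → ℝ) (i : ℕ) : ℝ := ∏ l ∈ range i, a l

theorem lm_zero (a : ℕ → ℝ) : lm a 0 = 1 := by simp [lm]

theorem lm_succ (a : ℕ → ℝ) (i : ℕ) : lm a (i + 1) = lm a i * a i := by simp [lm, prod_range_succ]

theorem lm_ge_pow {a : ℕ → ℝ} {J : ℕ} {Λ : ℝ} (hΛ : 0 ≤ Λ) (ha : ∀ i < J, Λ ≤ a i) : ∀ i ≤ J, Λ ^ i ≤ lm a i := by
  intro i
  induction i with
  | zero => intro _; simp [lm]
  | succ i ih =>
    intro hi
    rw [lm_succ, pow_succ]
    exact mul_le_mul (ih (by omega)) (ha i (by omega)) hΛ (le_trans (pow_nonneg hΛ i) (ih (by omega)))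

theorem lm_pos {a : ℕ → ℝ} {J : ℕ} (ha : ∀ i < J, 2 ≤ a i) : ∀ i ≤ J, 0 < lm a i := by
  intro i hi
  have := lm_ge_pow (by norm_num : (0 : ℝ) ≤ 2) ha i hi
  exact lt_of_lt_of_le (by positivity) this

/-- the recursion -/
theorem rec_boot (J : ℕ) (a η x : ℕ → ℝ) (ι D θ : ℝ) (hι : 0 ≤ ι) (hιD : 10 * ι ≤ D) (ha : ∀ i < J, 2 ≤ a i)
    (hη : ∀ i < J, 0 ≤ η i) (hs : ∑ i ∈ range J, η i ≤ θ) (hθ : θ ≤ 1 / 10) (hx0 : ∀ i ≤ J, 0 ≤ x i) (hxD : x 0 ≤ D)
    (hx : ∀ i < J, x i ≤ 2 * lm a i * D → |x (i + 1) - a i * x i| ≤ a i * (η i * x i + ι)) :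
    ∀ i ≤ J, x i ≤ 2 * lm a i * D ∧ |x i - lm a i * x 0| ≤ lm a i * (2 * θ * (x 0 + 2 * ι) + 2 * ι) := by
  have hD : 0 ≤ D := by linarith
  have hH : ∀ i ≤ J, ∑ l ∈ range i, η l ≤ θ := by
    intro i hi
    refine le_trans (sum_le_sum_of_subset_of_nonneg (range_mono hi) ?_) hs
    intro l hl _
    exact hη l (mem_range.1 hl)
  have hH0 : ∀ i ≤ J, 0 ≤ ∑ l ∈ range i, η l := by
    intro i hi
    refine sum_nonneg ?_
    intro l hl
    exact hη l (lt_of_lt_of_le (mem_range.1 hl) hi)
  have h00 : 0 ≤ x 0 := hx0 0 (Nat.zero_le J)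
  -- strong form
  have key : ∀ i ≤ J, x i ≤ lm a i * ((1 + 2 * ∑ l ∈ range i, η l) * (x 0 + (2 - 2 * (1 / 2) ^ i) * ι)) ∧
      |x i - lm a i * x 0| ≤ lm a i * (2 * (∑ l ∈ range i, η l) * (x 0 + 2 * ι) + (2 - 2 * (1 / 2) ^ i) * ι) := by
    intro i
    induction i with
    | zero =>
      intro _
      simp [lm_zero]
    | succ i ih =>
      intro hi
      obtain ⟨h1, h2⟩ := ih (by omega)
      have hHi := hH i (by omega)
      have hHi0 := hH0 i (by omega)
      have hlm := lm_pos ha i (by omega)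
      have hlm2 := lm_ge_pow (by norm_num : (0 : ℝ) ≤ 2) ha i (by omega)
      have hai := ha i (by omega)
      have hηi := hη i (by omega)
      have hxi := hx0 i (by omega)
      obtain ⟨H, hHe⟩ : ∃ H, H = ∑ l ∈ range i, η l := ⟨_, rfl⟩
      rw [sum_range_succ, lm_succ]
      rw [← hHe] at h1 h2 hHi hHi0 ⊢
      have hp0 : (0 : ℝ) < (1 / 2) ^ i := by positivity
      have hp1 : ((1 : ℝ) / 2) ^ i ≤ 1 := pow_le_one₀ (by norm_num) (by norm_num)
      have hpl : 1 ≤ lm a i * (1 / 2) ^ i := by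
        calc (1 : ℝ) = 2 ^ i * (1 / 2) ^ i := by rw [← mul_pow]; norm_num
          _ ≤ lm a i * (1 / 2) ^ i := mul_le_mul_of_nonneg_right hlm2 hp0.le
      obtain ⟨p, hpe⟩ : ∃ p, p = ((1 : ℝ) / 2) ^ i := ⟨_, rfl⟩
      rw [pow_succ, ← hpe]
      rw [← hpe] at h1 h2 hp0 hp1 hpl
      have hιl : ι ≤ lm a i * (p * ι) := by
        have := mul_le_mul_of_nonneg_right hpl hι
        linarith
      -- the bound `x i ≤ 2 λ D`
      have hb : x i ≤ lm a i * ((1 + 2 * H) * (x 0 + 2 * ι)) := by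
        refine le_trans h1 ?_
        refine mul_le_mul_of_nonneg_left ?_ hlm.le
        refine mul_le_mul_of_nonneg_left ?_ (by linarith)
        nlinarith
      have hb2 : x i ≤ 2 * lm a i * D := by
        refine le_trans hb ?_
        have : (1 + 2 * H) * (x 0 + 2 * ι) ≤ 2 * D := by
          have e1 : (1 + 2 * H) * (x 0 + 2 * ι) ≤ (1 + 2 * (1 / 10)) * (D + 2 * (D / 10)) := by
            refine mul_le_mul (by linarith) (by linarith) (by positivity) (by norm_num)
          linarith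
        have := mul_le_mul_of_nonneg_left this hlm.le
        linarith
      have hr := hx i (by omega) hb2
      have hr' := abs_le.1 hr
      have ha0 : 0 ≤ a i := by linarith
      constructor
      · have e1 : x (i + 1) ≤ a i * ((1 + η i) * x i + ι) := by linarith [hr'.2]
        have e2 : (1 + η i) * x i ≤ lm a i * ((1 + 2 * (H + η i)) * (x 0 + (2 - 2 * p) * ι)) := by
          have hxx : 0 ≤ x 0 + (2 - 2 * p) * ι := by nlinarith
          calc (1 + η i) * x i ≤ (1 + η i) * (lm a i * ((1 + 2 * H) * (x 0 + (2 - 2 * p) * ι))) :=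
                mul_le_mul_of_nonneg_left h1 (by linarith)
            _ = lm a i * (((1 + η i) * (1 + 2 * H)) * (x 0 + (2 - 2 * p) * ι)) := by ring
            _ ≤ lm a i * ((1 + 2 * (H + η i)) * (x 0 + (2 - 2 * p) * ι)) := by
                refine mul_le_mul_of_nonneg_left ?_ hlm.le
                refine mul_le_mul_of_nonneg_right ?_ hxx
                nlinarith
        have e3 : (1 + η i) * x i + ι ≤ lm a i * ((1 + 2 * (H + η i)) * (x 0 + (2 - 2 * (p * (1 / 2))) * ι)) := by
          have e4 : lm a i * (p * ι) ≤ lm a i * ((1 + 2 * (H + η i)) * (p * ι)) := by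
            refine mul_le_mul_of_nonneg_left ?_ hlm.le
            have : 0 ≤ p * ι := mul_nonneg hp0.le hι
            nlinarith
          have e5 : lm a i * ((1 + 2 * (H + η i)) * (x 0 + (2 - 2 * (p * (1 / 2))) * ι)) =
              lm a i * ((1 + 2 * (H + η i)) * (x 0 + (2 - 2 * p) * ι)) + lm a i * ((1 + 2 * (H + η i)) * (p * ι)) := by ring
          rw [e5]
          linarith
        calc x (i + 1) ≤ a i * ((1 + η i) * x i + ι) := e1
          _ ≤ a i * (lm a i * ((1 + 2 * (H + η i)) * (x 0 + (2 - 2 * (p * (1 / 2))) * ι))) := mul_le_mul_of_nonneg_left e3 ha0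
          _ = _ := by ring
      · have e1 : |x (i + 1) - lm a i * a i * x 0| ≤ |x (i + 1) - a i * x i| + a i * |x i - lm a i * x 0| := by
          have : x (i + 1) - lm a i * a i * x 0 = (x (i + 1) - a i * x i) + a i * (x i - lm a i * x 0) := by ring
          rw [this]
          refine le_trans (abs_add_le _ _) ?_
          rw [abs_mul (a i), abs_of_nonneg ha0]
        have e2 : η i * x i ≤ lm a i * (2 * η i * (x 0 + 2 * ι)) := by
          calc η i * x i ≤ η i * (lm a i * ((1 + 2 * H) * (x 0 + 2 * ι))) := mul_le_mul_of_nonneg_left hb hηi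
            _ ≤ η i * (lm a i * (2 * (x 0 + 2 * ι))) := by
                refine mul_le_mul_of_nonneg_left ?_ hηi
                refine mul_le_mul_of_nonneg_left ?_ hlm.le
                exact mul_le_mul_of_nonneg_right (by linarith) (by positivity)
            _ = _ := by ring
        have e3 : a i * (η i * x i + ι) ≤ a i * (lm a i * (2 * η i * (x 0 + 2 * ι)) + lm a i * (p * ι)) :=
          mul_le_mul_of_nonneg_left (by linarith) ha0
        have e4 := mul_le_mul_of_nonneg_left h2 ha0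
        refine le_trans e1 ?_
        refine le_trans (add_le_add (le_trans hr e3) e4) ?_
        apply le_of_eq
        ring
  intro i hi
  obtain ⟨h1, h2⟩ := key i hi
  have hlm := lm_pos ha i hi
  have hHi := hH i hi
  have hHi0 := hH0 i hi
  have hp0 : (0 : ℝ) < (1 / 2) ^ i := by positivity
  have h3 : (2 - 2 * (1 / 2) ^ i) * ι ≤ 2 * ι := by nlinarith
  constructor
  · refine le_trans h1 ?_
    have : (1 + 2 * ∑ l ∈ range i, η l) * (x 0 + (2 - 2 * (1 / 2) ^ i) * ι) ≤ 2 * D := by
      have e1 : (1 + 2 * ∑ l ∈ range i, η l) * (x 0 + (2 - 2 * (1 / 2) ^ i) * ι) ≤ (1 + 2 * (1 / 10)) * (D + 2 * (D / 10)) := by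
        have hp1 : ((1 : ℝ) / 2) ^ i ≤ 1 := pow_le_one₀ (by norm_num) (by norm_num)
        have : 0 ≤ (2 - 2 * ((1 : ℝ) / 2) ^ i) * ι := mul_nonneg (by linarith) hι
        refine mul_le_mul (by linarith) (by linarith) (by linarith) (by norm_num)
      linarith
    have := mul_le_mul_of_nonneg_left this hlm.le
    linarith
  · refine le_trans h2 ?_
    refine mul_le_mul_of_nonneg_left ?_ hlm.le
    have : 2 * (∑ l ∈ range i, η l) * (x 0 + 2 * ι) ≤ 2 * θ * (x 0 + 2 * ι) :=
      mul_le_mul_of_nonneg_right (by linarith) (by positivity)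
    linarith

/-- products of nearly equal factors -/
theorem lm_ratio (J : ℕ) (a b η : ℕ → ℝ) (θ : ℝ) (ha : ∀ i < J, 2 ≤ a i)
    (hη : ∀ i < J, 0 ≤ η i) (hs : ∑ i ∈ range J, η i ≤ θ) (hθ : θ ≤ 1 / 10)
    (hb : ∀ i < J, (1 - η i) * a i ≤ b i ∧ b i ≤ (1 + η i) * a i) :
    ∀ i ≤ J, (1 - θ) * lm a i ≤ lm b i ∧ lm b i ≤ (1 + 2 * θ) * lm a i := by
  have hH : ∀ i ≤ J, ∑ l ∈ range i, η l ≤ θ := by
    intro i hi
    refine le_trans (sum_le_sum_of_subset_of_nonneg (range_mono hi) ?_) hs
    intro l hl _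
    exact hη l (mem_range.1 hl)
  have hH0 : ∀ i ≤ J, 0 ≤ ∑ l ∈ range i, η l := by
    intro i hi
    refine sum_nonneg ?_
    intro l hl
    exact hη l (lt_of_lt_of_le (mem_range.1 hl) hi)
  have key : ∀ i ≤ J, (1 - ∑ l ∈ range i, η l) * lm a i ≤ lm b i ∧ lm b i ≤ (1 + 2 * ∑ l ∈ range i, η l) * lm a i := by
    intro i
    induction i with
    | zero => intro _; simp [lm_zero]
    | succ i ih =>
      intro hi
      obtain ⟨h1, h2⟩ := ih (by omega)
      obtain ⟨h3, h4⟩ := hb i (by omega)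
      have hHi := hH (i + 1) (by omega)
      have hHi0 := hH0 i (by omega)
      have hlm := lm_pos ha i (by omega)
      have hai := ha i (by omega)
      have hηi := hη i (by omega)
      rw [sum_range_succ] at hHi ⊢
      rw [lm_succ, lm_succ]
      obtain ⟨H, hHe⟩ : ∃ H, H = ∑ l ∈ range i, η l := ⟨_, rfl⟩
      rw [← hHe] at h1 h2 hHi hHi0 ⊢
      have hb0 : 0 ≤ b i := le_trans (mul_nonneg (by linarith) (by linarith)) h3
      have hlb : 0 ≤ lm b i := le_trans (mul_nonneg (by linarith) hlm.le) h1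
      have hla : 0 < lm a i * a i := mul_pos hlm (by linarith)
      constructor
      · calc (1 - (H + η i)) * (lm a i * a i) ≤ ((1 - H) * (1 - η i)) * (lm a i * a i) := by
              refine mul_le_mul_of_nonneg_right ?_ hla.le
              nlinarith
          _ = ((1 - H) * lm a i) * ((1 - η i) * a i) := by ring
          _ ≤ lm b i * b i := mul_le_mul h1 h3 (mul_nonneg (by linarith) (by linarith)) hlb
      · calc lm b i * b i ≤ ((1 + 2 * H) * lm a i) * ((1 + η i) * a i) :=
              mul_le_mul h2 h4 hb0 (mul_nonneg (by linarith) hlm.le)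
          _ = ((1 + 2 * H) * (1 + η i)) * (lm a i * a i) := by ring
          _ ≤ (1 + 2 * (H + η i)) * (lm a i * a i) := by
              refine mul_le_mul_of_nonneg_right ?_ hla.le
              nlinarith
  intro i hi
  obtain ⟨h1, h2⟩ := key i hi
  have hlm := lm_pos ha i hi
  have hHi := hH i hi
  constructor
  · refine le_trans ?_ h1
    exact mul_le_mul_of_nonneg_right (by linarith) hlm.le
  · refine le_trans h2 ?_
    exact mul_le_mul_of_nonneg_right (by linarith) hlm.le

/-- backward geometric sum -/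
theorem sum_lm {a : ℕ → ℝ} {J : ℕ} (ha : ∀ i < J, 2 ≤ a i) : ∑ i ∈ range J, lm a (i + 1) ≤ 2 * lm a J := by
  induction J with
  | zero => simp [lm_zero]
  | succ J ih =>
    rw [sum_range_succ]
    have h1 := ih (fun i hi => ha i (by omega))
    have h2 := lm_pos ha J (by omega)
    have h3 := ha J (by omega)
    rw [lm_succ]
    nlinarith

/-- the number of steps is small compared to the product -/
theorem J_le_lm {a : ℕ → ℝ} {J : ℕ} (ha : ∀ i < J, 2 ≤ a i) : (J : ℝ) ≤ lm a J := by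
  have h1 := lm_ge_pow (by norm_num : (0 : ℝ) ≤ 2) ha J le_rfl
  have h2 : (J : ℝ) ≤ 2 ^ J := by exact_mod_cast (Nat.lt_two_pow_self).le
  linarith

/-- the sum of the relative errors: `η i = C (e i (R' + 1 / S i) + s)` with `e i = 3 lm a i D`, `a i ≥ Λ / S i` -/
theorem sum_eta (J : ℕ) (a S : ℕ → ℝ) (Λ D R' C s c0 : ℝ) (hΛ : 2 ≤ Λ) (hS : ∀ i < J, 0 < S i ∧ S i ≤ 1)
    (ha : ∀ i < J, Λ ≤ a i * S i) (hD : 0 ≤ D) (hR : 0 ≤ R') (hC : 0 ≤ C) (hs : 0 ≤ s) (h0 : lm a J * D ≤ c0) :
    (∀ i < J, 2 ≤ a i) ∧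
    (∀ i < J, 0 ≤ C * (3 * lm a i * D * (R' + 1 / S i) + s)) ∧
    (∀ i < J, 3 * lm a i * D ≤ 3 * (c0 / Λ) * S i) ∧
    ∑ i ∈ range J, C * (3 * lm a i * D * (R' + 1 / S i) + s) ≤ C * (6 * (R' + 1) * c0 / Λ + J * s) := by
  have hΛ0 : 0 < Λ := by linarith
  have haΛ : ∀ i < J, Λ ≤ a i := by
    intro i hi
    obtain ⟨h1, h2⟩ := hS i hi
    have h3 := ha i hi
    have h4 : 0 < a i := by
      by_contra hcon
      push Not at hcon
      have : a i * S i ≤ 0 := mul_nonpos_of_nonpos_of_nonneg hcon h1.le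
      linarith
    nlinarith
  have ha2 : ∀ i < J, 2 ≤ a i := fun i hi => le_trans hΛ (haΛ i hi)
  have hlm : ∀ i ≤ J, 0 < lm a i := lm_pos ha2
  -- monotone
  have hmono : ∀ i < J, lm a (i + 1) * D ≤ c0 := by
    intro i hi
    refine le_trans ?_ h0
    refine mul_le_mul_of_nonneg_right ?_ hD
    have h := sum_lm ha2
    -- use monotonicity directly
    have hm : ∀ k, i + 1 + k ≤ J → lm a (i + 1) ≤ lm a (i + 1 + k) := by
      intro k
      induction k with
      | zero => intro _; simp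
      | succ k ih =>
        intro hk
        have h1 := ih (by omega)
        have h2 := hlm (i + 1 + k) (by omega)
        have h3 := ha2 (i + 1 + k) (by omega)
        have h4 := lm_succ a (i + 1 + k)
        rw [← add_assoc, h4]
        nlinarith
    have := hm (J - (i + 1)) (by omega)
    rwa [Nat.add_sub_cancel' (by omega : i + 1 ≤ J)] at this
  have hstep : ∀ i < J, lm a i * D ≤ lm a (i + 1) * D / Λ * S i := by
    intro i hi
    rw [lm_succ]
    have h1 := ha i hi
    have h2 := hlm i (by omega)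
    have h3 : lm a i * D * Λ ≤ lm a i * D * (a i * S i) := mul_le_mul_of_nonneg_left h1 (mul_nonneg h2.le hD)
    rw [div_mul_eq_mul_div, le_div_iff₀ hΛ0]
    linarith
  have hc0 : 0 ≤ c0 := le_trans (mul_nonneg (hlm J le_rfl).le hD) h0
  refine ⟨ha2, ?_, ?_, ?_⟩
  · intro i hi
    obtain ⟨h1, h2⟩ := hS i hi
    have h3 := hlm i (by omega)
    positivity
  · intro i hi
    obtain ⟨h1, h2⟩ := hS i hi
    have h3 := hstep i hi
    have h4 : lm a (i + 1) * D / Λ * S i ≤ c0 / Λ * S i := by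
      refine mul_le_mul_of_nonneg_right ?_ h1.le
      exact div_le_div_of_nonneg_right (hmono i hi) hΛ0.le
    linarith
  · have hterm : ∀ i ∈ range J, C * (3 * lm a i * D * (R' + 1 / S i) + s) ≤ C * (3 * (R' + 1) / Λ * D * lm a (i + 1) + s) := by
      intro i hi
      have hi' := mem_range.1 hi
      obtain ⟨h1, h2⟩ := hS i hi'
      refine mul_le_mul_of_nonneg_left ?_ hC
      have h3 := hstep i hi'
      have h5 : (R' + 1 / S i) * S i ≤ R' + 1 := by
        rw [add_mul, div_mul_cancel₀ _ h1.ne']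
        nlinarith
      have h6 : 0 ≤ R' + 1 / S i := by positivity
      have h7 : 0 ≤ lm a (i + 1) * D / Λ := by
        have := hlm (i + 1) (by omega)
        positivity
      have h8 : lm a i * D * (R' + 1 / S i) ≤ lm a (i + 1) * D / Λ * (R' + 1) := by
        calc lm a i * D * (R' + 1 / S i) ≤ (lm a (i + 1) * D / Λ * S i) * (R' + 1 / S i) :=
              mul_le_mul_of_nonneg_right h3 h6
          _ = lm a (i + 1) * D / Λ * ((R' + 1 / S i) * S i) := by ring
          _ ≤ lm a (i + 1) * D / Λ * (R' + 1) := mul_le_mul_of_nonneg_left h5 h7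
      have h9 : 3 * (R' + 1) / Λ * D * lm a (i + 1) = 3 * (lm a (i + 1) * D / Λ * (R' + 1)) := by ring
      rw [h9]
      linarith
    refine le_trans (sum_le_sum hterm) ?_
    rw [← mul_sum]
    refine mul_le_mul_of_nonneg_left ?_ hC
    rw [sum_add_distrib, ← mul_sum, sum_const, card_range, nsmul_eq_mul]
    have h := sum_lm ha2
    have h10 : 3 * (R' + 1) / Λ * D * ∑ i ∈ range J, lm a (i + 1) ≤ 3 * (R' + 1) / Λ * D * (2 * lm a J) := by
      refine mul_le_mul_of_nonneg_left h ?_
      positivity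
    have h11 : 3 * (R' + 1) / Λ * D * (2 * lm a J) ≤ 6 * (R' + 1) * c0 / Λ := by
      have : 3 * (R' + 1) / Λ * D * (2 * lm a J) = 6 * (R' + 1) / Λ * (lm a J * D) := by ring
      rw [this]
      have h12 : 6 * (R' + 1) / Λ * (lm a J * D) ≤ 6 * (R' + 1) / Λ * c0 := by
        refine mul_le_mul_of_nonneg_left h0 ?_
        positivity
      refine le_trans h12 (le_of_eq ?_)
      ring
    linarith

end Pool.Agent.H47.SR
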