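import Pool.Agent.H47.SR.Two
import Pool.Agent.H84.SR2.Def
import Pool.Agent.H91.SR.Kst

/-!
SHARP RATE (MP_8f2e1c_an), piece 4: the statements `OneStmt`, `RatStmt`, `TwoStmt` of `H84/SR2/Def`.
-/

set_option autoImplicit false

open Finset Filter Topology
open Pool.H70.SF Pool.H91.SR Pool.Agent.H85.LD Pool.Agent.H91.LD Pool.Agent.H84.SRT

namespace Pool.Agent.H47.SR

variable {d : ℕ}

theorem Fb_sub' (X Y : CV d) (b u : ℂ) : Fb (X - Y) b u = Fb X b u - Fb Y b u := by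
  unfold Fb FF hev
  ext
  · simp only [Prod.fst_sub, Pi.sub_apply, sub_mul, Finset.sum_sub_distrib]
  · simp only [Prod.snd_sub, Pi.sub_apply, sub_mul, Finset.sum_sub_distrib]

theorem clo_of_amp {s : Finset ℂ} {w : ℂ → ℝ} {a : ℝ} {X X1 : CV d} (h : Amp s w a (X1 - X)) : Clo a s w X X1 := by
  intro b hb v hv
  have := h b hb v hv
  rwa [Fb_sub'] at this

theorem clo_add {s : Finset ℂ} {w : ℂ → ℝ} {a : ℝ} {X Y : CV d} (h : Amp s w a Y) : Clo a s w X (X + Y) := by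
  apply clo_of_amp
  rwa [add_sub_cancel_left]

theorem Clo.mono {s : Finset ℂ} {w : ℂ → ℝ} {a a' : ℝ} {X X1 : CV d} (hw : ∀ b ∈ s, 0 < w b) (h : Clo a s w X X1)
    (ha : a ≤ a') : Clo a' s w X X1 :=
  fun b hb v hv => le_trans (h b hb v hv) (mul_le_mul_of_nonneg_right ha (hw b hb).le)

theorem Clo.trans {s : Finset ℂ} {w : ℂ → ℝ} {a a' : ℝ} {X X1 X2 : CV d} (h : Clo a s w X X1)
    (h' : Clo a' s w X1 X2) : Clo (a + a') s w X X2 := by
  intro b hb v hv
  have h1 := h b hb v hv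
  have h2 := h' b hb v hv
  have h3 := Pool.Agent.H70.PL.nm_tri (Fb X2 b v) (Fb X1 b v) (Fb X b v)
  linarith

/-- `be` is at least a small negative power of `d` -/
theorem be_low {e : ℝ} (he : 0 < e) (k : ℕ) {d : ℕ} (hd : 1 ≤ d) : (d : ℝ) ^ (-(k * e / 2000)) ≤ be e d ^ k := by
  rw [be_pow]
  apply Real.rpow_le_rpow_of_exponent_le (by exact_mod_cast hd)
  have h1 : (1 : ℝ) ≤ mm e := by exact_mod_cast mm_pos he
  have h2 : e / (2000 * mm e) ≤ e / 2000 := by
    apply div_le_div_of_nonneg_left he.le (by norm_num)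
    linarith
  have h3 : (0 : ℝ) ≤ k := Nat.cast_nonneg k
  nlinarith

theorem MM_eq : MM = 10 ^ 6 := rfl

/-- the product `√d kap tt` -/
theorem skt {e : ℝ} {d : ℕ} (hd : 1 ≤ d) : √(d : ℝ) * (kap e d * tt e d) = (d : ℝ) ^ (7 * e / 8) := by
  have hd0 : (0 : ℝ) < d := by exact_mod_cast hd
  unfold kap tt
  rw [Real.sqrt_eq_rpow, ← Real.rpow_add hd0, ← Real.rpow_add hd0]
  congr 1
  ring

theorem k4_ev {A C2 e : ℝ} (hA : 1 ≤ A) (he : 0 < e) : ∀ᶠ d : ℕ in atTop,
    K4 MM (LL d) (tt e d) (C2 * hh d) (qq e d) (k1 A e d) (kap e d) (de e d) (be e d ^ 3) d := by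
  filter_upwards [log_be_le 10 0 he, LL_ge 1, qn_pow_ge hA he 2, eventually_ge_atTop 1,
    log_pow_le (2 * (1000000 * MM ^ 3)) 1 (show 0 < 3 * e / 4 by linarith),
    const_neg_le (1000000 * MM ^ 2 * C2) (show -(1 / 2 : ℝ) < -(1 / 2) + e / 2 by linarith)] with d h1 h2 h3 hd h5 h6
  have hd0 : (0 : ℝ) < d := by exact_mod_cast hd
  have hd1 : (1 : ℝ) ≤ d := by exact_mod_cast hd
  have hb := Pool.H91.SR.be_pos (e := e) hd
  rw [pow_zero, mul_one] at h1
  have hb1 : be e d ≤ 1 / 10 := by linarith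
  have ht := Pool.H91.SR.tt_pos (e := e) hd
  have hk : 0 < kap e d := by
    unfold kap
    exact Real.rpow_pos_of_pos hd0 _
  have hb4 : be e d ^ 4 ≤ 1 / 10 := by
    calc be e d ^ 4 ≤ be e d ^ 1 := pow_le_pow_of_le_one hb.le (by linarith) (by norm_num)
      _ ≤ 1 / 10 := by rw [pow_one]; exact hb1
  have hb3 : be e d ^ 3 ≤ (1 / 10) ^ 3 := pow_le_pow_left₀ hb.le hb1 3
  have h7e : be e d ^ 7 * (d : ℝ) ^ (7 * e / 8) ≥ (d : ℝ) ^ (3 * e / 4) := by
    have g1 := be_low he 7 hd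
    calc (d : ℝ) ^ (3 * e / 4) ≤ (d : ℝ) ^ (-((7 : ℕ) * e / 2000) + 7 * e / 8) := by
          apply Real.rpow_le_rpow_of_exponent_le hd1
          push_cast
          linarith
      _ = (d : ℝ) ^ (-((7 : ℕ) * e / 2000)) * (d : ℝ) ^ (7 * e / 8) := Real.rpow_add hd0 _ _
      _ ≤ be e d ^ 7 * (d : ℝ) ^ (7 * e / 8) := mul_le_mul_of_nonneg_right g1 (Real.rpow_nonneg hd0.le _)
  refine ⟨?_, ?_, ?_, h2, by positivity, ?_, by positivity, ?_, ?_, ?_⟩
  · unfold de
    positivity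
  · unfold qq de
    have : be e d ^ 5 = be e d ^ 4 * be e d := by ring
    rw [this]
    have : 0 < be e d ^ 4 := by positivity
    nlinarith
  · unfold de
    linarith
  · norm_num at hb3
    linarith
  · unfold k1
    refine le_trans ?_ h3
    unfold kap
    apply Real.rpow_le_rpow_of_exponent_le hd1
    push_cast
    linarith
  · rw [skt hd]
    unfold de
    have hb40 : 0 < be e d ^ 4 := by positivity
    have g1 : LL d / be e d ^ 4 + 1 ≤ 2 * LL d / be e d ^ 4 := by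
      rw [← sub_nonneg]
      have : 2 * LL d / be e d ^ 4 - (LL d / be e d ^ 4 + 1) = (LL d - be e d ^ 4) / be e d ^ 4 := by
        field_simp
        ring
      rw [this]
      apply div_nonneg _ hb40.le
      linarith
    have g2 : 0 < MM := by unfold MM; norm_num
    calc 1000000 * MM ^ 3 * (LL d / be e d ^ 4 + 1) ≤ 1000000 * MM ^ 3 * (2 * LL d / be e d ^ 4) :=
          mul_le_mul_of_nonneg_left g1 (by positivity)
      _ = (2 * (1000000 * MM ^ 3) * LL d ^ 1) / be e d ^ 4 := by ring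
      _ ≤ (be e d ^ 7 * (d : ℝ) ^ (7 * e / 8)) / be e d ^ 4 := by
          apply div_le_div_of_nonneg_right _ hb40.le
          exact le_trans h5 h7e
      _ = be e d ^ 3 * (d : ℝ) ^ (7 * e / 8) := by
          field_simp
  · rw [hh_eq hd]
    have g1 := be_low he 3 hd
    have g2 : kap e d * tt e d = (d : ℝ) ^ (-(e / 8) + (-(1 / 2 : ℝ) + e)) := by
      unfold kap tt
      rw [← Real.rpow_add hd0]
    rw [g2]
    calc 1000000 * MM ^ 2 * (C2 * (d : ℝ) ^ (-(1 / 2) : ℝ)) = 1000000 * MM ^ 2 * C2 * (d : ℝ) ^ (-(1 / 2) : ℝ) := by ring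
      _ ≤ (d : ℝ) ^ (-(1 / 2) + e / 2) := h6
      _ ≤ (d : ℝ) ^ (-((3 : ℕ) * e / 2000) + (-(e / 8) + (-(1 / 2 : ℝ) + e))) := by
          apply Real.rpow_le_rpow_of_exponent_le hd1
          push_cast
          linarith
      _ = (d : ℝ) ^ (-((3 : ℕ) * e / 2000)) * (d : ℝ) ^ (-(e / 8) + (-(1 / 2 : ℝ) + e)) := Real.rpow_add hd0 _ _
      _ ≤ be e d ^ 3 * (d : ℝ) ^ (-(e / 8) + (-(1 / 2 : ℝ) + e)) :=
          mul_le_mul_of_nonneg_right g1 (Real.rpow_nonneg hd0.le _)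

/-- the world gives the system of hypotheses of the abstract statements -/
theorem sys_of {A C2 e : ℝ} (hA : 100 * MM ≤ A) {s : Finset ℂ} {w : ℂ → ℝ} {Xs : CV d} (hd : 1 ≤ d)
    (hk : Pool.Agent.H70.PL.Kon A (LL d) (tt e d) (C2 * hh d) (qq e d) (q1 A e d) (qn A e d) (k1 A e d) (k2 A e d)
      (kap e d) (S0 e d) (mm e)) (hW : Wor A e d s w Xs) :
    Sys MM A (LL d) (tt e d) (C2 * hh d) (qq e d) (q1 A e d) (qn A e d) (k1 A e d) (k2 A e d) (kap e d) (S0 e d)
      (mm e) d s w Xs :=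
  ⟨hd, by unfold MM; norm_num, hA, hk, hW.cov, fun b _ => hW.wgt.pos b, hW.sta⟩

theorem oneStmt {A : ℝ} (hA : 100 * MM ≤ A) : OneStmt A := by
  have hA1 : 1 ≤ A := by
    have : (1 : ℝ) ≤ 100 * MM := by unfold MM; norm_num
    linarith
  intro C1 hC1 e he he4
  filter_upwards [kon hA1 (show 0 ≤ C1 by linarith) he he4, k4_ev (C2 := C1) hA1 he, eventually_ge_atTop 1,
    const_neg_le (3 * MM) (show e / 2 < 7 * e / 8 by linarith)] with d hk hK hd h1
  intro s w Xs hW X hX y hy hG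
  have H := sys_of hA hd hk hW
  have h2 := one_A' H (clo_of_amp hX) hK hy hG
  rw [skt hd] at h2
  refine le_trans ?_ h2
  rw [le_div_iff₀ (by unfold MM; norm_num)]
  linarith

theorem ratStmt {A : ℝ} (hA : 100 * MM ≤ A) : RatStmt A := by
  have hA1 : 1 ≤ A := by
    have : (1 : ℝ) ≤ 100 * MM := by unfold MM; norm_num
    linarith
  intro C1 CY hC1 hCY e he he4
  filter_upwards [kon (C1 := 2 * C1 * CY) hA1 (show 0 ≤ 2 * C1 * CY by positivity) he he4,
    k4_ev (C2 := 2 * C1 * CY) hA1 he, eventually_ge_atTop 1, log_be_le 1 0 he] with d hk hK hd hb1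
  intro s w Xs hW X Y σ hσ hσ1 hX hY x y y' hx hxr hy hy' hG hD hax
  have hb := Pool.H91.SR.be_pos (e := e) hd
  rw [pow_zero, mul_one, one_mul] at hb1
  have H := sys_of hA hd hk hW
  have hh0 := hh_pos hd
  have hCC : C1 ≤ C1 * CY := by nlinarith
  have c1 : Clo (2 * C1 * CY * hh d) s w Xs X := by
    refine (clo_of_amp hX).mono H.wp ?_
    exact mul_le_mul_of_nonneg_right (by linarith) hh0.le
  have hσY : CY * σ ≤ C1 * CY * hh d := by
    calc CY * σ ≤ CY * (C1 * hh d) := mul_le_mul_of_nonneg_left hσ1 (by linarith)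
      _ = C1 * CY * hh d := by ring
  have c2 : Clo (2 * C1 * CY * hh d) s w Xs (X + Y) := by
    refine ((clo_of_amp hX).trans (clo_add hY)).mono H.wp ?_
    have : C1 * hh d ≤ C1 * CY * hh d := mul_le_mul_of_nonneg_right hCC hh0.le
    linarith
  have hsτ : CY * σ ≤ 2 * C1 * CY * hh d := by
    have : 0 ≤ C1 * CY * hh d := by positivity
    linarith
  refine ratio H c1 c2 (by positivity) hsτ (clo_add hY) hK hx hy hy' hG hD (le_trans hax ?_)
  unfold rs
  rw [div_le_iff₀ hb]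
  nlinarith

theorem twoStmt {A : ℝ} (hA : 100 * MM ≤ A) : TwoStmt A := by
  have hA1 : 1 ≤ A := by
    have : (1 : ℝ) ≤ 100 * MM := by unfold MM; norm_num
    linarith
  intro C1 CY CD hC1 hCY hCD e he he4
  filter_upwards [kon (C1 := 2 * C1 * CY) hA1 (show 0 ≤ 2 * C1 * CY by positivity) he he4,
    k4_ev (C2 := 2 * C1 * CY) hA1 he, eventually_ge_atTop 1, log_be_le CY 0 he,
    log_pow_le (1000000 * MM ^ 2 * (CY * CD)) 0 (show 0 < 3 * e / 4 by linarith)] with d hk hK hd hb1 hc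
  intro s w Xs hW X σ D0 c J hσ hσ1 hX hc0 hG hD hJ
  have hb := Pool.H91.SR.be_pos (e := e) hd
  have hd0 : (0 : ℝ) < d := by exact_mod_cast hd
  have hd1 : (1 : ℝ) ≤ d := by exact_mod_cast hd
  rw [pow_zero, mul_one] at hb1
  rw [pow_zero, mul_one] at hc
  have hbe1 : be e d ≤ 1 := by
    have : 1 * be e d ≤ CY * be e d := mul_le_mul_of_nonneg_right hCY hb.le
    linarith
  have H := sys_of hA hd hk hW
  have hh0 := hh_pos hd
  have hCC : C1 ≤ C1 * CY := by nlinarith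
  have c1 : Clo (2 * C1 * CY * hh d) s w Xs X := by
    refine (clo_of_amp hX).mono H.wp ?_
    exact mul_le_mul_of_nonneg_right (by linarith) hh0.le
  have hσY : CY * σ ≤ C1 * CY * hh d := by
    calc CY * σ ≤ CY * (C1 * hh d) := mul_le_mul_of_nonneg_left hσ1 (by linarith)
      _ = C1 * CY * hh d := by ring
  have c2 : ∀ Y : CV d, Amp s w (CY * σ) Y → Clo (2 * C1 * CY * hh d) s w Xs (X + Y) := by
    intro Y hY
    refine ((clo_of_amp hX).trans (clo_add hY)).mono H.wp ?_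
    have : C1 * hh d ≤ C1 * CY * hh d := mul_le_mul_of_nonneg_right hCC hh0.le
    linarith
  have hsτ : CY * σ ≤ 2 * C1 * CY * hh d := by
    have : 0 ≤ C1 * CY * hh d := by positivity
    linarith
  have hsg : 0 ≤ CY * σ := by positivity
  have hsd := sd_pos hd
  have hD0 : 0 ≤ D0 := by
    have h1 : 0 < σ * √d := by positivity
    by_contra hcon
    push Not at hcon
    have : CD * D0 < 0 := mul_neg_of_pos_of_neg (by linarith) hcon
    linarith
  have O : Orb MM (tt e d) (kap e d) (be e d ^ 3) (CY * σ) (CY * CD) D0 d X J (fun i => ob X c i) := by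
    refine ⟨by positivity, ?_, hD0, ?_, ?_⟩
    · rw [skt hd]
      have g1 := be_low he 3 hd
      calc 1000000 * MM ^ 2 * (CY * CD) ≤ (d : ℝ) ^ (3 * e / 4) := hc
        _ ≤ (d : ℝ) ^ (-((3 : ℕ) * e / 2000) + 7 * e / 8) := by
            apply Real.rpow_le_rpow_of_exponent_le hd1
            push_cast
            linarith
        _ = (d : ℝ) ^ (-((3 : ℕ) * e / 2000)) * (d : ℝ) ^ (7 * e / 8) := Real.rpow_add hd0 _ _
        _ ≤ be e d ^ 3 * (d : ℝ) ^ (7 * e / 8) := mul_le_mul_of_nonneg_right g1 (Real.rpow_nonneg hd0.le _)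
    · calc CY * σ * √d = CY * (σ * √d) := by ring
        _ ≤ CY * (CD * D0) := mul_le_mul_of_nonneg_left hD (by linarith)
        _ = CY * CD * D0 := by ring
    · exact le_trans hJ hbe1
  have hy0 : IsU (ob X c 0) := H.nx_unit c1 hc0
  have hlm : ∀ (V : CV d) (v : ℂ × ℂ) (i : ℕ), lm (fun i => ‖aa V (ob V v i)‖) i = Ph V v i := fun V v i => rfl
  constructor
  · intro Y c' hY hc' hDc i hi
    have hz0 : IsU (ob (X + Y) c' 0) := H.nx_unit (c2 Y hY) hc'
    obtain ⟨-, t2, t3, t4⟩ := two_one H c1 hsg hsτ hK O hy0 (fun i _ => rfl) (fun i hi => hG i hi) (c2 Y hY) (clo_add hY)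
      (z := fun i => ob (X + Y) c' i) hz0 (fun i _ => rfl) hDc i hi
    rw [hlm, hlm] at t3 t4
    rw [hlm] at t2
    have hP0 : 0 ≤ Ph X c i := by
      unfold Ph
      exact Finset.prod_nonneg fun _ _ => norm_nonneg _
    have hb3 : be e d ^ 3 ≤ be e d := by
      calc be e d ^ 3 ≤ be e d ^ 1 := pow_le_pow_of_le_one hb.le hbe1 (by norm_num)
        _ = be e d := pow_one _
    have hb30 : 0 < be e d ^ 3 := by positivity
    refine ⟨t2, ?_, ?_⟩
    · refine le_trans t4 (mul_le_mul_of_nonneg_right ?_ hP0)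
      linarith
    · have h1 : 1 ≤ (1 + be e d) * (1 - be e d ^ 3 / 10) := by nlinarith
      calc Ph X c i = 1 * Ph X c i := (one_mul _).symm
        _ ≤ ((1 + be e d) * (1 - be e d ^ 3 / 10)) * Ph X c i := mul_le_mul_of_nonneg_right h1 hP0
        _ = (1 + be e d) * ((1 - be e d ^ 3 / 10) * Ph X c i) := by ring
        _ ≤ (1 + be e d) * Ph (X + Y) c' i := mul_le_mul_of_nonneg_left t3 (by linarith)
  · intro Y1 Y2 v1 v2 hY1 hY2 hv1 hv2 hD1 hD2 i hi
    have hz1 : IsU (ob (X + Y1) v1 0) := H.nx_unit (c2 Y1 hY1) hv1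
    have hz2 : IsU (ob (X + Y2) v2 0) := H.nx_unit (c2 Y2 hY2) hv2
    have h := two_two H c1 hsg hsτ hK O hy0 (fun i _ => rfl) (fun i hi => hG i hi) (c2 Y1 hY1) (c2 Y2 hY2) (clo_add hY1)
      (clo_add hY2) (z1 := fun i => ob (X + Y1) v1 i) (z2 := fun i => ob (X + Y2) v2 i) hz1 hz2 (fun i _ => rfl)
      (fun i _ => rfl) hD1 hD2 i hi
    rw [hlm] at h
    refine le_trans h ?_
    have hP0 : 0 ≤ Ph X c i := by
      unfold Ph
      exact Finset.prod_nonneg fun _ _ => norm_nonneg _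
    obtain ⟨x0, hx0⟩ : ∃ x0, x0 = DD d (ob (X + Y1) v1 0) (ob (X + Y2) v2 0) := ⟨_, rfl⟩
    have hx0' : √d * ‖wd (ob (X + Y1) v1 0) (ob (X + Y2) v2 0)‖ = x0 := by rw [hx0]; rfl
    have hx00 : 0 ≤ x0 := by rw [← hx0']; positivity
    rw [hx0', ← hx0]
    have e1 : be e d ^ 3 * Ph X c i * (x0 + CY * σ * √d) ≤ be e d ^ 2 * Ph X c i * (x0 + σ * √d) := by
      have f1 : be e d * (x0 + CY * σ * √d) ≤ x0 + σ * √d := by
        have f2 : be e d * x0 ≤ 1 * x0 := mul_le_mul_of_nonneg_right hbe1 hx00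
        have f3 : be e d * (CY * σ * √d) ≤ σ * √d := by
          have : be e d * (CY * σ * √d) = (CY * be e d) * (σ * √d) := by ring
          rw [this]
          have f4 : 0 ≤ σ * √d := by positivity
          have := mul_le_mul_of_nonneg_right hb1 f4
          linarith
        linarith
      have f5 : 0 ≤ be e d ^ 2 * Ph X c i := by positivity
      calc be e d ^ 3 * Ph X c i * (x0 + CY * σ * √d) = be e d ^ 2 * Ph X c i * (be e d * (x0 + CY * σ * √d)) := by ring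
        _ ≤ be e d ^ 2 * Ph X c i * (x0 + σ * √d) := mul_le_mul_of_nonneg_left f1 f5
    exact e1

end Pool.Agent.H47.SR
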